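import Pool.Agent.E8helper30.TD.Stm

/-!
# Project TD, part GEN: from centres to coverings
-/

set_option autoImplicit false

namespace Pool.Agent.E8helper91.TD

open Pool.Agent.E8helper30.TD

theorem om_eq : om = ⟨1 / 2, √3 / 2⟩ := by
  have h : Complex.I * ((Real.pi : ℂ) / 3) = ((Real.pi / 3 : ℝ) : ℂ) * Complex.I := by
    push_cast
    ring
  unfold om
  rw [h, Complex.exp_mul_I, ← Complex.ofReal_cos, ← Complex.ofReal_sin, Real.cos_pi_div_three,
    Real.sin_pi_div_three]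
  apply Complex.ext <;> simp

theorem normSq_om (x y : ℝ) : Complex.normSq ((x : ℂ) + y * om) = x ^ 2 + x * y + y ^ 2 := by
  have h3 : √3 * √3 = 3 := Real.mul_self_sqrt (by norm_num)
  rw [om_eq, Complex.normSq_apply]
  simp only [Complex.add_re, Complex.add_im, Complex.mul_re, Complex.mul_im, Complex.ofReal_re,
    Complex.ofReal_im]
  linear_combination (y ^ 2 / 4) * h3

theorem sq_dist (d : ℝ) (M : ℤ) (hM : 0 < M) (p q : ℤ) {z : ℂ}
    (hz : z = (d : ℂ) * ((p : ℂ) / M + (q : ℂ) / M * om)) :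
    ‖z‖ ^ 2 * (M : ℝ) ^ 2 = d ^ 2 * (N p q : ℝ) := by
  have hM0 : (M : ℝ) ≠ 0 := by exact_mod_cast hM.ne'
  have h1 : z = ((d * (p / M) : ℝ) : ℂ) + ((d * (q / M) : ℝ) : ℂ) * om := by
    rw [hz]
    push_cast
    ring
  rw [← Complex.normSq_eq_norm_sq, h1, normSq_om]
  unfold N
  push_cast
  field_simp

theorem t_GEN : S_GEN := by
  intro M A B d hM hd hctr hA hB
  obtain ⟨ctr, h1, h2⟩ := hctr
  have hMr : (0 : ℝ) < M := by exact_mod_cast hM
  have hM0 : (M : ℂ) ≠ 0 := by exact_mod_cast hM.ne'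
  let f : ℤ × ℤ → ℂ := fun p => (d : ℂ) * (((ctr p.1 p.2).1 : ℂ) / M + ((ctr p.1 p.2).2 : ℂ) / M * om)
  refine ⟨Set.range f, Set.countable_range f, ?_, ?_⟩
  · rintro _ ⟨p, rfl⟩ _ ⟨q, rfl⟩ hne
    rw [interior_closedBall _ one_ne_zero, interior_closedBall _ one_ne_zero]
    apply Metric.ball_disjoint_ball
    have h3 : B ≤ N ((ctr p.1 p.2).1 - (ctr q.1 q.2).1) ((ctr p.1 p.2).2 - (ctr q.1 q.2).2) := by
      rcases h2 p.1 p.2 q.1 q.2 with h | h
      · exfalso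
        apply hne
        simp only [f]
        rw [h]
      · exact h
    have h4 := sq_dist d M hM ((ctr p.1 p.2).1 - (ctr q.1 q.2).1)
      ((ctr p.1 p.2).2 - (ctr q.1 q.2).2) (z := f p - f q) (by
        simp only [f]
        push_cast
        ring)
    have h5 : (B : ℝ) ≤ (N ((ctr p.1 p.2).1 - (ctr q.1 q.2).1)
      ((ctr p.1 p.2).2 - (ctr q.1 q.2).2) : ℝ) := by exact_mod_cast h3
    have h6 : 4 * (M : ℝ) ^ 2 ≤ ‖f p - f q‖ ^ 2 * (M : ℝ) ^ 2 := by
      rw [h4]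
      nlinarith [mul_le_mul_of_nonneg_left h5 (sq_nonneg d)]
    have h7 : 4 ≤ ‖f p - f q‖ ^ 2 := le_of_mul_le_mul_right h6 (by positivity)
    rw [dist_eq_norm]
    nlinarith [norm_nonneg (f p - f q)]
  · rintro z ⟨a, b, rfl⟩
    refine Set.mem_iUnion₂.2 ⟨f (a, b), ⟨(a, b), rfl⟩, ?_⟩
    rw [Metric.mem_closedBall, dist_eq_norm]
    have h4 := sq_dist d M hM (M * a - (ctr a b).1) (M * b - (ctr a b).2)
      (z := (d : ℂ) * (a + b * om) - f (a, b)) (by
        simp only [f]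
        push_cast
        field_simp
        ring)
    have h5 : (N (M * a - (ctr a b).1) (M * b - (ctr a b).2) : ℝ) ≤ (A : ℝ) := by
      exact_mod_cast h1 a b
    have h6 : ‖(d : ℂ) * (a + b * om) - f (a, b)‖ ^ 2 * (M : ℝ) ^ 2 ≤ 1 * (M : ℝ) ^ 2 := by
      rw [h4]
      nlinarith [mul_le_mul_of_nonneg_left h5 (sq_nonneg d)]
    have h7 : ‖(d : ℂ) * (a + b * om) - f (a, b)‖ ^ 2 ≤ 1 := le_of_mul_le_mul_right h6 (by positivity)
    nlinarith [norm_nonneg ((d : ℂ) * (a + b * om) - f (a, b))]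

end Pool.Agent.E8helper91.TD
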